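import Mathlib

/-! MP_ea8a26, local relations: the coefficients of a real polynomial whose complex roots have real part at most zero. -/

set_option autoImplicit false

namespace Pool.Agent.Helper1.AF

open Polynomial

/-- the class of sequences: all two by two minors of the Hurwitz matrix are nonnegative -/
structure Cls (H : ℤ → ℝ) : Prop where
  nonneg : ∀ i, 0 ≤ H i
  minor : ∀ (m : ℤ) (d e : ℕ), H m * H (m + d + 2 * e) ≤ H (m + d) * H (m + 2 * e)

/-- the class is closed under multiplication by `s + r` -/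
theorem Cls.lin {H : ℤ → ℝ} (h : Cls H) (r : ℝ) (hr : 0 ≤ r) : Cls (fun i => H (i - 1) + r * H i) := by
  refine ⟨fun i => add_nonneg (h.nonneg _) (mul_nonneg hr (h.nonneg _)), ?_⟩
  intro m d e
  have h1 := h.minor (m - 1) d e
  have h3 := h.minor m d e
  have e1 : m - 1 + (d : ℤ) + 2 * (e : ℤ) = m + d + 2 * e - 1 := by ring
  have e2 : m - 1 + (d : ℤ) = m + d - 1 := by ring
  have e3 : m - 1 + 2 * (e : ℤ) = m + 2 * e - 1 := by ring
  rw [e1, e2, e3] at h1
  have hmid : H (m - 1) * H (m + d + 2 * e) + H m * H (m + d + 2 * e - 1) ≤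
      H (m + d - 1) * H (m + 2 * e) + H (m + d) * H (m + 2 * e - 1) := by
    rcases Nat.eq_zero_or_pos d with hd | hd
    · subst hd
      simp only [Nat.cast_zero, add_zero]
      exact le_refl _
    · obtain ⟨d', rfl⟩ : ∃ d' : ℕ, d = d' + 1 := ⟨d - 1, by omega⟩
      have h4 := h.minor (m - 1) (d' + 1 + 1) e
      have h5 := h.minor m d' e
      push_cast at h4 h5 ⊢
      have e4 : m - 1 + ((d' : ℤ) + 1 + 1) + 2 * (e : ℤ) = m + (d' + 1) + 2 * e := by ring
      have e5 : m - 1 + ((d' : ℤ) + 1 + 1) = m + (d' + 1) := by ring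
      have e6 : m + ((d' : ℤ) + 1) + 2 * (e : ℤ) - 1 = m + d' + 2 * e := by ring
      have e7 : m + ((d' : ℤ) + 1) - 1 = m + d' := by ring
      rw [e4, e5, e3] at h4
      rw [e6, e7]
      linarith
  have h6 := mul_le_mul_of_nonneg_left hmid hr
  have h7 := mul_le_mul_of_nonneg_left h3 (mul_nonneg hr hr)
  nlinarith

/-- the class is closed under multiplication by `s ^ 2 + p s + q` -/
theorem Cls.quad {H : ℤ → ℝ} (h : Cls H) (p q : ℝ) (hp : 0 ≤ p) (hq : 0 ≤ q) :
    Cls (fun i => H (i - 2) + p * H (i - 1) + q * H i) := by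
  refine ⟨fun i => add_nonneg (add_nonneg (h.nonneg _) (mul_nonneg hp (h.nonneg _)))
    (mul_nonneg hq (h.nonneg _)), ?_⟩
  intro m d e
  rcases Nat.eq_zero_or_pos e with he | he
  · subst he
    simp only [Nat.cast_zero, mul_zero, add_zero]
    exact le_of_eq (mul_comm _ _)
  obtain ⟨e', rfl⟩ : ∃ e' : ℕ, e = e' + 1 := ⟨e - 1, by omega⟩
  -- the mixed bracket for a linear shift
  have lin : ∀ m : ℤ, H (m - 1) * H (m + d + 2 * (e' + 1 : ℕ)) + H m * H (m + d + 2 * (e' + 1 : ℕ) - 1) ≤
      H (m + d - 1) * H (m + 2 * (e' + 1 : ℕ)) + H (m + d) * H (m + 2 * (e' + 1 : ℕ) - 1) := by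
    intro m
    rcases Nat.eq_zero_or_pos d with hd | hd
    · subst hd
      simp only [Nat.cast_zero, add_zero]
      exact le_refl _
    · obtain ⟨d', rfl⟩ : ∃ d' : ℕ, d = d' + 1 := ⟨d - 1, by omega⟩
      have h4 := h.minor (m - 1) (d' + 1 + 1) (e' + 1)
      have h5 := h.minor m d' (e' + 1)
      push_cast at h4 h5 ⊢
      have e3 : m - 1 + 2 * ((e' : ℤ) + 1) = m + 2 * (e' + 1) - 1 := by ring
      have e4 : m - 1 + ((d' : ℤ) + 1 + 1) + 2 * ((e' : ℤ) + 1) = m + (d' + 1) + 2 * (e' + 1) := by ring
      have e5 : m - 1 + ((d' : ℤ) + 1 + 1) = m + (d' + 1) := by ring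
      have e6 : m + ((d' : ℤ) + 1) + 2 * ((e' : ℤ) + 1) - 1 = m + d' + 2 * (e' + 1) := by ring
      have e7 : m + ((d' : ℤ) + 1) - 1 = m + d' := by ring
      rw [e4, e5, e3] at h4
      rw [e6, e7]
      linarith
  have l0 := lin m
  have l1 := lin (m - 1)
  have a0 := h.minor m d (e' + 1)
  have a1 := h.minor (m - 1) d (e' + 1)
  have a2 := h.minor (m - 2) d (e' + 1)
  have b1 := h.minor (m - 2) d (e' + 1 + 1)
  have b2 := h.minor m d e'
  push_cast at l0 l1 a0 a1 a2 b1 b2 ⊢
  have r1 : m - 1 - 1 = m - 2 := by ring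
  have r2 : m - 1 + (d : ℤ) + 2 * ((e' : ℤ) + 1) = m + d + 2 * (e' + 1) - 1 := by ring
  have r3 : m + (d : ℤ) + 2 * ((e' : ℤ) + 1) - 1 - 1 = m + d + 2 * (e' + 1) - 2 := by ring
  have r4 : m - 1 + (d : ℤ) = m + d - 1 := by ring
  have r5 : m + (d : ℤ) - 1 - 1 = m + d - 2 := by ring
  have r6 : m - 1 + 2 * ((e' : ℤ) + 1) = m + 2 * (e' + 1) - 1 := by ring
  have r7 : m + 2 * ((e' : ℤ) + 1) - 1 - 1 = m + 2 * (e' + 1) - 2 := by ring
  have r8 : m - 2 + (d : ℤ) + 2 * ((e' : ℤ) + 1) = m + d + 2 * (e' + 1) - 2 := by ring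
  have r9 : m - 2 + (d : ℤ) = m + d - 2 := by ring
  have r10 : m - 2 + 2 * ((e' : ℤ) + 1) = m + 2 * (e' + 1) - 2 := by ring
  have r11 : m - 2 + (d : ℤ) + 2 * ((e' : ℤ) + 1 + 1) = m + d + 2 * (e' + 1) := by ring
  have r12 : m - 2 + 2 * ((e' : ℤ) + 1 + 1) = m + 2 * (e' + 1) := by ring
  have r13 : m + (d : ℤ) + 2 * (e' : ℤ) = m + d + 2 * (e' + 1) - 2 := by ring
  have r14 : m + 2 * (e' : ℤ) = m + 2 * (e' + 1) - 2 := by ring
  rw [r2, r4, r6] at l1 a1
  rw [r1, r3, r5, r7] at l1
  rw [r8, r9, r10] at a2
  rw [r11, r9, r12] at b1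
  rw [r13, r14] at b2
  generalize H (m - 2) = x2 at *
  generalize H (m - 1) = x1 at *
  generalize H m = x0 at *
  generalize H (m + d + 2 * (e' + 1)) = y0 at *
  generalize H (m + d + 2 * (e' + 1) - 1) = y1 at *
  generalize H (m + d + 2 * (e' + 1) - 2) = y2 at *
  generalize H (m + d) = z0 at *
  generalize H (m + d - 1) = z1 at *
  generalize H (m + d - 2) = z2 at *
  generalize H (m + 2 * (e' + 1)) = w0 at *
  generalize H (m + 2 * (e' + 1) - 1) = w1 at *
  generalize H (m + 2 * (e' + 1) - 2) = w2 at *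
  have c1 := mul_le_mul_of_nonneg_left l0 (mul_nonneg hp hq)
  have c2 := mul_le_mul_of_nonneg_left l1 hp
  have c3 := mul_le_mul_of_nonneg_left a0 (mul_nonneg hq hq)
  have c4 := mul_le_mul_of_nonneg_left a1 (mul_nonneg hp hp)
  have c5 := mul_le_mul_of_nonneg_left (add_le_add b1 b2) hq
  nlinarith

/-- the coefficients, indexed by the integers -/
noncomputable def co (p : ℝ[X]) (i : ℤ) : ℝ := if 0 ≤ i then p.coeff i.toNat else 0

theorem co_nat (p : ℝ[X]) (n : ℕ) : co p (n : ℤ) = p.coeff n := by
  unfold co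
  rw [if_pos (Int.natCast_nonneg n), Int.toNat_natCast]

theorem co_neg (p : ℝ[X]) (i : ℤ) (hi : i < 0) : co p i = 0 := by
  unfold co
  rw [if_neg (not_le.2 hi)]

theorem co_lin (p : ℝ[X]) (r : ℝ) : co ((X + C r) * p) = fun i => co p (i - 1) + r * co p i := by
  funext i
  rcases lt_or_ge i 0 with hi | hi
  · rw [co_neg _ _ hi, co_neg _ _ hi, co_neg _ _ (by omega)]
    ring
  · obtain ⟨n, rfl⟩ := Int.eq_ofNat_of_zero_le hi
    rw [co_nat, co_nat, add_mul, coeff_add, coeff_C_mul]
    congr 1
    cases n with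
    | zero => rw [co_neg _ _ (by simp)]; simp
    | succ n =>
      rw [coeff_X_mul, ← co_nat]
      congr 1
      push_cast
      ring

theorem co_quad (P : ℝ[X]) (p q : ℝ) : co ((X ^ 2 + C p * X + C q) * P) =
    fun i => co P (i - 2) + p * co P (i - 1) + q * co P i := by
  have h1 : (X ^ 2 + C p * X + C q) * P = (X + C 0) * ((X + C 0) * P) + C p * ((X + C 0) * P) + C q * P := by
    simp only [C_0]
    ring
  have hadd : ∀ (A B : ℝ[X]) (i : ℤ), co (A + B) i = co A i + co B i := by
    intro A B i
    unfold co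
    split_ifs
    · rw [coeff_add]
    · ring
  have hC : ∀ (a : ℝ) (A : ℝ[X]) (i : ℤ), co (C a * A) i = a * co A i := by
    intro a A i
    unfold co
    split_ifs
    · rw [coeff_C_mul]
    · ring
  funext i
  rw [h1, hadd, hadd, hC, hC, co_lin, co_lin]
  simp only [zero_mul, add_zero]
  have e : i - 1 - 1 = i - 2 := by ring
  rw [e]

/-- **Hurwitz**: if all complex roots of a real polynomial with positive leading coefficient have real part at most
zero, its coefficients are in the class. -/
theorem cls_of_roots (p : ℝ[X]) (hp : ∀ z : ℂ, aeval z p = 0 → z.re ≤ 0) (hl : 0 < p.leadingCoeff) :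
    Cls (co p) := by
  induction hn : p.natDegree using Nat.strong_induction_on generalizing p with
  | _ n ih =>
    have hp0 : p ≠ 0 := by
      rintro rfl
      simp at hl
    rcases Nat.eq_zero_or_pos n with h0 | h0
    · -- constant
      rw [h0] at hn
      have h1 : p = C (p.coeff 0) := eq_C_of_natDegree_eq_zero hn
      set a := p.coeff 0 with ha
      have ha0 : 0 < a := by
        rw [h1, leadingCoeff_C] at hl
        exact hl
      have hco : ∀ i, co p i = if i = 0 then a else 0 := by
        intro i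
        rw [h1]
        unfold co
        by_cases hi : i = 0
        · subst hi
          simp
        · rw [if_neg hi]
          split_ifs with h2
          · rw [coeff_C, if_neg]
            omega
          · rfl
      refine ⟨fun i => ?_, fun m d e => ?_⟩
      · rw [hco]
        split_ifs
        · exact ha0.le
        · exact le_refl _
      · rw [hco, hco, hco, hco]
        by_cases hm : m = 0
        · by_cases hd : d = 0
          · subst hd
            simp only [Nat.cast_zero, add_zero]
            exact le_refl _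
          · rw [if_neg (show ¬ m + (d : ℤ) + 2 * e = 0 by omega), mul_zero]
            split_ifs <;> positivity
        · rw [if_neg hm, zero_mul]
          split_ifs <;> positivity
    · -- a root
      have hdeg : 0 < (p.map (algebraMap ℝ ℂ)).degree := by
        rw [degree_map]
        exact natDegree_pos_iff_degree_pos.1 (by omega)
      obtain ⟨z, hz⟩ := Complex.exists_root hdeg
      have hz' : aeval z p = 0 := by
        rw [IsRoot.def, eval_map_algebraMap] at hz
        exact hz
      have hre := hp z hz'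
      have hq : ∀ f q : ℝ[X], p = f * q → f.Monic → 0 < f.natDegree →
          Cls (co q) := by
        intro f q hpq hf hfd
        have hq0 : q ≠ 0 := by
          rintro rfl
          rw [mul_zero] at hpq
          exact hp0 hpq
        have hnd : p.natDegree = f.natDegree + q.natDegree := by
          rw [hpq, natDegree_mul hf.ne_zero hq0]
        refine ih q.natDegree (by omega) q ?_ ?_ rfl
        · intro z hz
          apply hp z
          rw [hpq, map_mul, hz, mul_zero]
        · rw [hpq, leadingCoeff_mul, hf.leadingCoeff, one_mul] at hl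
          exact hl
      by_cases him : z.im = 0
      · -- real root
        have hzr : z = (z.re : ℂ) := Complex.ext rfl (by simpa using him)
        have hroot : p.IsRoot z.re := by
          rw [hzr] at hz'
          rw [IsRoot.def]
          have h1 : ((p.eval z.re : ℝ) : ℂ) = 0 := by
            rw [← hz']
            exact (aeval_algebraMap_apply_eq_algebraMap_eval z.re p).symm
          exact_mod_cast h1
        obtain ⟨q, hq'⟩ := dvd_iff_isRoot.2 hroot
        have hf : (X - C z.re : ℝ[X]) = X + C (-z.re) := by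
          rw [C_neg, sub_eq_add_neg]
        rw [hf] at hq'
        have h2 := hq (X + C (-z.re)) q hq' (monic_X_add_C _) (by rw [natDegree_X_add_C]; exact one_pos)
        rw [hq', co_lin]
        exact h2.lin _ (by linarith)
      · -- pair of complex roots
        obtain ⟨q, hq'⟩ := quadratic_dvd_of_aeval_eq_zero_im_ne_zero p hz' him
        have hf : (X ^ 2 - C (2 * z.re) * X + C (‖z‖ ^ 2) : ℝ[X]) =
            X ^ 2 + C (-(2 * z.re)) * X + C (‖z‖ ^ 2) := by
          rw [C_neg]
          ring
        rw [hf] at hq'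
        have hnatG : ∀ a c : ℝ, (X ^ 2 + C a * X + C c : ℝ[X]).natDegree = 2 := by
          intro a c
          compute_degree!
        have hmonG : ∀ a c : ℝ, (X ^ 2 + C a * X + C c : ℝ[X]).Monic := by
          intro a c
          unfold Monic leadingCoeff
          rw [hnatG]
          simp [coeff_X, coeff_C]
        have hnat := hnatG (-(2 * z.re)) (‖z‖ ^ 2)
        have hmon := hmonG (-(2 * z.re)) (‖z‖ ^ 2)
        have h2 := hq _ q hq' hmon (by rw [hnat]; norm_num)
        rw [hq', co_quad]
        exact h2.quad _ _ (by linarith) (by positivity)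

end Pool.Agent.Helper1.AF
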